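import Pool.Agent.Helper11.ZP.Defs

/-! # Zilber–Pink for the translates of a subvariety of `Y(1)ⁿ = ℂⁿ`: definitions -/

namespace Pool.Agent.Helper36.ZW
open MvPolynomial Pool.Agent.Helper11.ZP

variable {n : ℕ}

/-- the translate `Z + (c, …, c)` -/
def shift (Z : Set (Fin n → ℂ)) (c : ℂ) : Set (Fin n → ℂ) := {z | (fun i => z i - c) ∈ Z}

/-- the Zariski closure of the image of `V` under the Möbius transformation
`z_i ↦ 1 / (z_i - γ_i) + μ_i` -/
def moebius (γ μ : Fin n → ℂ) (V : Set (Fin n → ℂ)) : Set (Fin n → ℂ) :=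
  zeroLocus ℂ (vanishingIdeal ℂ {w : Fin n → ℂ | ∃ z ∈ V, ∀ i, z i ≠ γ i ∧ w i = 1 / (z i - γ i) + μ i})

/-- the diagonal attached to `π`: the points with `z_i = z_j` whenever `π i = π j` -/
def diag (π : Fin n → Fin n) : Set (Fin n → ℂ) := {z | ∀ i j, π i = π j → z i = z j}

/-- the dimension of the diagonal attached to `π` -/
def dimDiag (π : Fin n → Fin n) : ℕ := (Finset.univ.image π).card

/-- `f` is a polynomial in the variables `T_i`, `i ∈ J`, which contains its top monomial
`∏ T_i ^ (deg_i f)` -/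
structure TopIn (J : Finset (Fin n)) (f : MvPolynomial (Fin n) ℂ) : Prop where
  vars : f.vars ⊆ J
  top : f.coeff (Finsupp.equivFunOnFinite.symm fun i => f.degreeOf i) ≠ 0

/-- hereditary general position at the cusps: for every diagonal `D`, every component `B` of `Z ∩ D` of
dimension at most `e = dim Z + dim D - n` and every set of `e + 1` coordinates which are pairwise
different on `B`, some polynomial in these coordinates, which contains its top monomial, vanishes on
`B` -/
def HerGP (Z : Set (Fin n → ℂ)) : Prop :=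
  ∀ (π : Fin n → Fin n) (B : Set (Fin n → ℂ)), IsComponent B (Z ∩ diag π) →
    dim B + n ≤ dim Z + dimDiag π → ∀ J : Finset (Fin n), J.card + n = dim Z + dimDiag π + 1 →
      (∀ i ∈ J, ∀ j ∈ J, i ≠ j → ∃ z ∈ B, z i ≠ z j) → ∃ f, TopIn J f ∧ ∀ z ∈ B, eval z f = 0

/-- `B` is a component of excess dimension of the intersection of `Z` with a diagonal -/
def IsExcess (Z B : Set (Fin n → ℂ)) : Prop :=
  ∃ π : Fin n → Fin n, IsComponent B (Z ∩ diag π) ∧ dim Z + dimDiag π < dim B + n

/-- `B` is maximal with `IsExcess` -/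
def IsMaxExcess (Z B : Set (Fin n → ℂ)) : Prop :=
  IsExcess Z B ∧ ∀ B', IsExcess Z B' → B ⊆ B' → B' = B

/-- `A` is a maximal atypical subvariety of `V` -/
def IsMaxAtypical (V A : Set (Fin n → ℂ)) : Prop :=
  IsAtypical V A ∧ ∀ A', IsAtypical V A' → A ⊆ A' → A' = A

/-- **Zilber–Pink for the translate `Z + (c, …, c)`**, with the list of the maximal atypical
subvarieties: they are the translates of the maximal components of excess dimension of the
intersections of `Z` with the diagonals, they are finite in number, and every atypical subvariety is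
contained in one of them -/
structure ZilberPink (Z : Set (Fin n → ℂ)) (c : ℂ) : Prop where
  sub : IsSubvariety (shift Z c)
  dim : dim (shift Z c) = dim Z
  iff : ∀ A, IsMaxAtypical (shift Z c) A ↔ ∃ B, IsMaxExcess Z B ∧ A = shift B c
  fin : {A | IsMaxAtypical (shift Z c) A}.Finite
  le : ∀ A, IsAtypical (shift Z c) A → ∃ A', IsMaxAtypical (shift Z c) A' ∧ A ⊆ A'

/-- `Z` is the zero set of polynomials with coefficients in the field `k` -/
def DefinedOver (k : Subfield ℂ) (Z : Set (Fin n → ℂ)) : Prop :=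
  ∃ I : Ideal (MvPolynomial (Fin n) k), Z = zeroLocus ℂ I

/-- `c` is an algebraic number such that `(deg c + 1)! M c` is not an algebraic integer, or `c` is
transcendental over a field of definition of `Z` -/
def Far (M : ℕ) (Z : Set (Fin n → ℂ)) (c : ℂ) : Prop :=
  (IsAlgebraic ℚ c ∧ ¬ IsIntegral ℤ (((((minpoly ℚ c).natDegree + 1).factorial * M : ℕ) : ℂ) * c)) ∨
    ∃ k : Subfield ℂ, DefinedOver k Z ∧ Transcendental k c

/-- the curve `z_i = s / (1 - i s)`, `i = 0, …, n - 1` -/
def exCurve (n : ℕ) : Set (Fin n → ℂ) := {z | ∃ s : ℂ, ∀ i : Fin n, 1 - i * s ≠ 0 ∧ z i = s / (1 - i * s)}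

end Pool.Agent.Helper36.ZW
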