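import Pool.Agent.Helper36.ZV.Desc
import Pool.Agent.Helper36.ZV.GenE
import Pool.Agent.Helper36.ZW.Defs

/-! # Zilber–Pink for the translates of a subvariety of `Y(1)ⁿ`: proofs -/

namespace Pool.Agent.Helper36.ZW
open Finset MvPolynomial Pool.Agent.Helper11.ZP Pool.Agent.Helper36.ZU Pool.Agent.Helper36.ZV
open Pool.Agent.Helper11.ZT
open scoped Nat

variable {n : ℕ}

lemma topIn_iff {J : Finset (Fin n)} {f : MvPolynomial (Fin n) ℂ} :
    TopIn J f ↔ Helper20.ZT.TopIn J f := ⟨fun h => ⟨h.vars, h.top⟩, fun h => ⟨h.vars, h.top⟩⟩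

lemma isExcess_iff {Z B : Set (Fin n → ℂ)} : IsExcess Z B ↔ IsDiagAtypical (fun _ => ()) Z B :=
  ⟨fun ⟨π, h1, h2⟩ => ⟨π, fun _ _ _ => rfl, h1, h2⟩, fun ⟨π, _, h1, h2⟩ => ⟨π, h1, h2⟩⟩

lemma isMaxExcess_iff {Z B : Set (Fin n → ℂ)} : IsMaxExcess Z B ↔ IsMaxDiag (fun _ => ()) Z B := by
  simp only [IsMaxExcess, IsMaxDiag, isExcess_iff]

lemma herGP_iff {Z : Set (Fin n → ℂ)} : HerGP Z ↔ ZU.HerGP (fun _ => ()) Z := by
  constructor
  · intro h π _ B hB h1 J h2 h3
    obtain ⟨f, hf, hf0⟩ := h π B hB h1 J h2 (fun i hi j hj hij => h3 i hi j hj hij rfl)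
    exact ⟨f, topIn_iff.1 hf, hf0⟩
  · intro h π B hB h1 J h2 h3
    obtain ⟨f, hf, hf0⟩ := h π (fun _ _ _ => rfl) B hB h1 J h2 (fun i hi j hj hij _ => h3 i hi j hj hij)
    exact ⟨f, topIn_iff.2 hf, hf0⟩

lemma zilberPink_of {Z : Set (Fin n → ℂ)} {c : ℂ} (h : ZPTranslate (fun _ => ()) Z (fun _ => c)) :
    ZilberPink Z c := by
  refine ⟨h.sub, h.dim, fun A => ?_, h.fin, h.le⟩
  simp only [isMaxExcess_iff]
  exact h.iff A

/-- **Zilber–Pink for the translates, uniformly** -/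
theorem zilberPink {Z : Set (Fin n → ℂ)} (hZ : IsSubvariety Z) (h : HerGP Z) :
    ∃ M : ℕ, 0 < M ∧ ∀ c : ℂ, Far M Z c → ZilberPink Z c := by
  rw [herGP_iff] at h
  obtain ⟨M, hM0, hM⟩ := zp_uniformM hZ h
  refine ⟨M, hM0, ?_⟩
  rintro c (⟨halg, hc⟩ | ⟨k, ⟨I, rfl⟩, hc⟩)
  · obtain ⟨O, hO⟩ := exists_sepM (n := n) halg hc
    exact zilberPink_of (hM O _ (fun _ => halg) hO)
  · exact zilberPink_of (zp_transc hZ h hc)

/-- the transformation in two steps -/
lemma moebius_eq (γ μ : Fin n → ℂ) (V : Set (Fin n → ℂ)) :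
    moebius γ μ V = trans (Helper20.ZT.moeb γ V) μ := by
  -- the vanishing ideal of a translate
  set S : Set (Fin n → ℂ) := {w | ∃ z ∈ V, ∀ i, z i ≠ γ i ∧ w i = 1 / (z i - γ i)} with hS
  have h1 : {w : Fin n → ℂ | ∃ z ∈ V, ∀ i, z i ≠ γ i ∧ w i = 1 / (z i - γ i) + μ i} = trans S μ := by
    ext w
    constructor
    · rintro ⟨z, hz, h⟩
      refine ⟨z, hz, fun i => ⟨(h i).1, ?_⟩⟩
      change w i - μ i = _
      rw [(h i).2, add_sub_cancel_right]
    · rintro ⟨z, hz, h⟩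
      refine ⟨z, hz, fun i => ⟨(h i).1, ?_⟩⟩
      rw [← (h i).2, sub_add_cancel]
  have h2 : Helper20.ZT.moeb γ V = zeroLocus ℂ (vanishingIdeal ℂ S) := rfl
  rw [moebius, h1, h2]
  ext z
  constructor
  · intro hz f hf
    have h3 : ZU.shift (fun i => -μ i) f ∈ vanishingIdeal ℂ (trans S μ) := by
      rw [mem_vanishingIdeal_iff]
      intro w hw
      rw [aeval_eq_eval]
      have h4 := hf _ hw
      rw [aeval_eq_eval] at h4
      refine (ZU.eval_shift _ w f).trans ?_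
      exact h4
    have h5 := hz _ h3
    rw [aeval_eq_eval] at h5 ⊢
    exact (ZU.eval_shift (fun i => -μ i) z f).symm.trans h5
  · intro hz f hf
    have h3 : ZU.shift μ f ∈ vanishingIdeal ℂ S := by
      rw [mem_vanishingIdeal_iff]
      intro w hw
      rw [aeval_eq_eval]
      refine (ZU.eval_shift _ w f).trans ?_
      have h4 : (fun i => w i + μ i) ∈ trans S μ := by
        rw [mem_trans]
        simpa using hw
      have h5 := hf _ h4
      rw [aeval_eq_eval] at h5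
      exact h5
    have h5 := hz _ h3
    rw [aeval_eq_eval] at h5 ⊢
    have h6 := ZU.eval_shift μ (fun i => z i - μ i) f
    simp only [sub_add_cancel] at h6
    exact h6.symm.trans h5

/-- **general transformations of every subvariety** -/
theorem generic {V : Set (Fin n → ℂ)} (hV : IsSubvariety V) :
    ∃ P : MvPolynomial (Fin n) ℂ, P ≠ 0 ∧ ∀ γ : Fin n → ℂ, eval γ P ≠ 0 →
      ∃ Q : MvPolynomial (Fin n) ℂ, Q ≠ 0 ∧ ∀ μ : Fin n → ℂ, eval μ Q ≠ 0 →
        IsSubvariety (moebius γ μ V) ∧ dim (moebius γ μ V) = dim V ∧ HerGP (moebius γ μ V) ∧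
          ∀ B, ¬ IsExcess (moebius γ μ V) B := by
  obtain ⟨P, hP, h⟩ := ZV.generic (fun _ : Fin n => ()) hV
  refine ⟨P, hP, fun γ hγ => ?_⟩
  obtain ⟨Q, hQ, h1⟩ := h γ hγ
  refine ⟨Q, hQ, fun μ hμ => ?_⟩
  rw [moebius_eq]
  obtain ⟨h2, h3, h4, h5⟩ := h1 μ hμ
  exact ⟨h2, h3, herGP_iff.2 h4, fun B hB => h5 B (isExcess_iff.1 hB)⟩

/-- without excess components there are no atypical subvarieties -/
theorem ZilberPink.none {Z : Set (Fin n → ℂ)} {c : ℂ} (h : ZilberPink Z c) (hZ : ∀ B, ¬ IsExcess Z B)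
    (A : Set (Fin n → ℂ)) : ¬ IsAtypical (shift Z c) A := by
  intro hA
  obtain ⟨A', hA', -⟩ := h.le A hA
  obtain ⟨B, hB, -⟩ := (h.iff A').1 hA'
  exact hZ B hB.1

/-- **curves** -/
theorem curves {C : Set (Fin n → ℂ)} (hC : IsSubvariety C) (h1 : dim C = 1) :
    {g : ℂ | ¬ (IsSubvariety (moebius (fun _ => g) 0 C) ∧ dim (moebius (fun _ => g) 0 C) = 1 ∧
      HerGP (moebius (fun _ => g) 0 C))}.Finite := by
  have h := herGP_moeb hC h1.le
  rw [h1] at h
  have h2 : ∀ g : ℂ, moebius (fun _ => g) 0 C = Helper20.ZT.moeb (fun _ => g) C := by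
    intro g
    rw [moebius_eq]
    ext z
    simp [mem_trans]
  simp only [h2, herGP_iff]
  exact h

lemma exCurve_eq : exCurve n = curve n := rfl

/-- the example -/
theorem example_curve (hn : 3 ≤ n) : IsSubvariety (exCurve n) ∧ dim (exCurve n) = 1 ∧
    ∀ c : ℂ, Far (n - 1)! (exCurve n) c → ∀ A, IsAtypical (shift (exCurve n) c) A ↔ A = {fun _ => c} := by
  obtain ⟨h1, h2⟩ := curve_facts (n := n) (by omega)
  rw [exCurve_eq]
  refine ⟨h1, h2, fun c hc A => ?_⟩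
  rcases hc with ⟨halg, hc⟩ | ⟨k, ⟨I, hI⟩, hc⟩
  · exact curve_all hn halg hc A
  · have hgp : ZU.HerGP (fun _ : Fin n => ()) (curve n) := by
      intro π hπ B hB h3 J h4 h5
      obtain ⟨f, hf, -, hf0⟩ := herGPAtM_curve (⊤ : ValuationSubring ℂ) h1 h2 _ π hπ B hB h3 J h4 h5
      exact ⟨f, hf, hf0⟩
    have htr : trans ({0} : Set (Fin n → ℂ)) (fun _ => c) = {fun _ => c} := by
      ext z
      rw [mem_trans, Set.mem_singleton_iff, Set.mem_singleton_iff]
      constructor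
      · intro h
        funext i
        have := congrFun h i
        simpa [sub_eq_zero] using this
      · rintro rfl
        funext i
        simp
    have hzp : ZPTranslate (fun _ : Fin n => ()) (curve n) (fun _ => c) := by
      have h3 : curve n = zeroLocus ℂ I := hI
      rw [h3] at h1 hgp ⊢
      exact zp_transc h1 hgp hc
    constructor
    · intro hA
      obtain ⟨A', hA', hAA⟩ := hzp.le A hA
      obtain ⟨B, hB, rfl⟩ := (hzp.iff A').1 hA'
      rw [(isDiag_curve hn).1 hB.1, htr] at hAA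
      obtain ⟨S, ⟨hAs, -, -⟩, -⟩ := hA
      obtain ⟨z, hz⟩ := IsSubvariety.nonempty' hAs
      refine Set.Subset.antisymm hAA ?_
      rw [Set.singleton_subset_iff, ← Set.mem_singleton_iff.1 (hAA hz)]
      exact hz
    · rintro rfl
      have := isAtypical_trans (κ := fun _ : Fin n => ()) ((isDiag_curve hn).2 rfl)
        (a := fun _ => c) (fun _ _ _ => rfl)
      rwa [htr] at this

end Pool.Agent.Helper36.ZW
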